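import Pool.Agent.OneRel.RankOne

/-!
# MP_9b52e9_al: the word problem of the one-relator groups of the variety of soluble groups of
derived length at most `n`, for every `n ≥ 3` and every rank `k`

For `r` in the free group `F` on `k` letters let `G_n(r)` be the quotient of `F` by the normal
closure of `r` and the `n`-th term of the derived series. The word `w` represents the identity of
`G_n(r)` iff `FreeGroup.mk w` lies in the subgroup generated by these two normal subgroups.
* The word problem of `G_n(r)` is solvable for every `r` if and only if `k ≤ 1`.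
* If `k ≥ 2`, then for some `r` every recursively enumerable set of natural numbers is many-one
  reducible to the word problem of `G_n(r)`.
-/

theorem Pool.Agent.Results.MP_9b52e9_al.EveryDerivedLength.result (n k : ℕ) (hn : 3 ≤ n) :
    ((∀ r : FreeGroup (Fin k), ComputablePred fun w : List (Fin k × Bool) =>
        FreeGroup.mk w ∈ Subgroup.normalClosure {r} ⊔ derivedSeries (FreeGroup (Fin k)) n) ↔
      k ≤ 1) ∧
    (2 ≤ k → ∃ r : FreeGroup (Fin k), ∀ p : ℕ → Prop, REPred p →
      ManyOneReducible p fun w : List (Fin k × Bool) =>
        FreeGroup.mk w ∈ Subgroup.normalClosure {r} ⊔ derivedSeries (FreeGroup (Fin k)) n) := by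
  have e : ∀ r : FreeGroup (Fin k), (fun w : List (Fin k × Bool) =>
      FreeGroup.mk w ∈ Subgroup.normalClosure {r} ⊔ derivedSeries (FreeGroup (Fin k)) n) =
      Pool.Agent.OneRel.AllN.WP n k r := by
    intro r
    funext w
    unfold Pool.Agent.OneRel.AllN.WP
    rw [sup_comm]
  constructor
  · have h := Pool.Agent.OneRel.AllN.answer n k hn
    rw [← h]
    exact ⟨fun h1 r => by rw [← e r]; exact h1 r, fun h1 r => by rw [e r]; exact h1 r⟩
  · intro hk
    obtain ⟨r, hr⟩ := Pool.Agent.OneRel.AllN.hard_all n k hn hk
    refine ⟨r, fun p hp => ?_⟩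
    rw [e r]
    exact hr p hp
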